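import Pool.Agent.Y266.LA.FIRST
import Pool.Agent.Y266.LA.GCD
import Pool.Agent.Y266.LA.CONV
import Pool.Agent.Y266.LA.COORD

/-!
# L-atoms on `ℂⁿ`: one half of the equivalence is true, and all the monomials

The definitions `Cn`, `IsLAtom`, `IsFirstComponent`, … are those of the starting file
`ProductIsLAtom`, which shows that `z₁ z₂` is an L-atom on `ℂⁿ`, `n ≥ 2`, and not the first component
of an automorphism. Proofs of the parts: helper385 (`FIRST`), helper371 (`GCD`), helper848 (`CONV`),
helper182 (`COORD`).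
-/

set_option autoImplicit false

open Pool.Agent.Results.MP_cc4673_an.ProductIsLAtom Pool.Agent.Y266.LA

namespace Pool.Agent.Results.MP_cc4673_an.MonomialAtoms

/-- Complete description.

1. In every dimension the first component of an analytic automorphism is an L-atom (one half of the
   equivalence of the question is true for every `n`).
2. A monomial `∏ z_i ^ a_i` on `ℂⁿ` is an L-atom if and only if its exponents are coprime.
3. It is the first component of an automorphism if and only if it is a coordinate `z_j`.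
4. So for every `n ≥ 2` the other half fails, for all the monomials with coprime exponents of degree
   at least two: there are such L-atoms which depend on all the variables and have arbitrarily large
   degree. -/
theorem result :
    (∀ (n : ℕ) (f : Cn n → ℂ), IsFirstComponent f → IsLAtom f) ∧
    (∀ (n : ℕ) (a : Fin n → ℕ), IsLAtom (mono a) ↔ Finset.univ.gcd a = 1) ∧
    (∀ (n : ℕ) (a : Fin n → ℕ), IsFirstComponent (mono a) ↔ ∑ i, a i = 1) ∧
    (∀ n : ℕ, 2 ≤ n → ∀ a : Fin n → ℕ, Finset.univ.gcd a = 1 → 2 ≤ ∑ i, a i →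
      IsLAtom (mono a) ∧ ¬ IsFirstComponent (mono a)) ∧
    (∀ n : ℕ, 2 ≤ n → ∀ N : ℕ, ∃ a : Fin n → ℕ, (∀ i, 1 ≤ a i) ∧ N ≤ ∑ i, a i ∧
      IsLAtom (mono a) ∧ ¬ IsFirstComponent (mono a)) := by
  have h4 : ∀ n : ℕ, 2 ≤ n → ∀ a : Fin n → ℕ, Finset.univ.gcd a = 1 → 2 ≤ ∑ i, a i →
      IsLAtom (mono a) ∧ ¬ IsFirstComponent (mono a) := by
    intro n _ a ha h2
    refine ⟨gcd n a ha, ?_⟩
    rw [coord n a]
    omega
  refine ⟨first, fun n a => ⟨conv n a, gcd n a⟩, coord, h4, ?_⟩
  intro n hn N
  refine ⟨fun i => if (i : ℕ) = 0 then 1 else N + 1, ?_, ?_, ?_⟩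
  · intro i
    dsimp only
    split_ifs <;> omega
  · have h1 : (if ((⟨1, by omega⟩ : Fin n) : ℕ) = 0 then 1 else N + 1) ≤
        ∑ i : Fin n, if (i : ℕ) = 0 then 1 else N + 1 :=
      Finset.single_le_sum (f := fun i : Fin n => if (i : ℕ) = 0 then 1 else N + 1)
        (fun i _ => Nat.zero_le _) (Finset.mem_univ _)
    simp only [one_ne_zero, if_false] at h1
    show N ≤ ∑ i : Fin n, (if (i : ℕ) = 0 then 1 else N + 1)
    omega
  · refine h4 n hn _ ?_ ?_
    · have hd : Finset.univ.gcd (fun i : Fin n => if (i : ℕ) = 0 then 1 else N + 1) ∣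
          (if ((⟨0, by omega⟩ : Fin n) : ℕ) = 0 then 1 else N + 1) :=
        Finset.gcd_dvd (f := fun i : Fin n => if (i : ℕ) = 0 then 1 else N + 1)
          (Finset.mem_univ _)
      simp only [if_true] at hd
      exact Nat.dvd_one.mp hd
    · have h1 : ∑ i ∈ ({⟨0, by omega⟩, ⟨1, by omega⟩} : Finset (Fin n)),
          (if (i : ℕ) = 0 then 1 else N + 1) ≤
          ∑ i : Fin n, if (i : ℕ) = 0 then 1 else N + 1 :=
        Finset.sum_le_sum_of_subset (Finset.subset_univ _)
      rw [Finset.sum_pair (by intro h; simpa using congrArg Fin.val h)] at h1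
      simp only [one_ne_zero, if_false, if_true] at h1
      omega

end Pool.Agent.Results.MP_cc4673_an.MonomialAtoms
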